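import Pool.Agent.V11230.SG2

/-!
# The complexity of the star dichromatic number for every threshold `p > 1`, `p ≠ 2`

* `STAR_p` is NP-hard for every real `p > 1` with `p ≠ 2`;
* it is in NP, hence NP-complete, for every rational such `p`;
* it is in NP for only countably many real `p`.

Hardness: reductions from 3SAT to digraphs with a gap.

For `1 < p < 2`: for `r ≥ 1`, a satisfiable formula gives a digraph with an acyclic
`(r + 2, r + 1)`-colouring, and for an unsatisfiable formula every acyclic `(k, d)`-colouring has
`k / d ≥ (r + 1) / r`.  The vertices of every directed cycle hit each window of `k - d` consecutive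
colours.  There are `r + 1` disjoint such windows and one more colour, the colour of a hub vertex.
The hub is a path of `r` vertices, so it misses two of the windows; these are the two truth values.

For `2 < p < 3` the digraph contains an odd cycle of digons with `2 * j + 1` vertices, and for `p ≥ 3`
a complete graph of digons.

Membership: for `p = a / b` with `1 ≤ b ≤ a`, the star dichromatic number is at most `p` exactly
when there is an acyclic `(a, b)`-colouring; the certificate is such a colouring together with a
topological order of each of its `a` windows.

Countability: every rational number `≥ 1` is the star dichromatic number of a digraph, so different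
thresholds give different languages, and there are countably many languages in NP.
-/

set_option autoImplicit false

namespace Pool.Agent.Results.MP_77e9aa_lc.StarFull

open Pool.Agent.NPC Pool.Agent.V11230.SD Pool.Agent.NPC.V11230.SDP Pool.Agent.NPC.V11230.SDQ

/-- **`STAR_p` is NP-hard for every real `p > 1` with `p ≠ 2`** (so for every non-integer `p > 1`),
**it is in NP for every rational `p > 1`, and it is in NP for only countably many real `p > 1`.**
For rational `p` the infimum is at most `p` exactly when some colouring has ratio at most `p`. -/
theorem result :
    (∀ p : ℝ, 1 < p → p ≠ 2 → NPHardP (Star p) ∧ NPHardP (StarMin p)) ∧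
    (∀ q : ℚ, 1 < q → InNPP (Star (q : ℝ)) ∧ ∀ M, Star (q : ℝ) M ↔ StarMin (q : ℝ) M) ∧
    {p : ℝ | 1 < p ∧ InNPP (Star p)}.Countable :=
  ⟨fun _ h1 h2 => ⟨(hard_star_all h1 h2).1.toNPHardP, (hard_star_all h1 h2).2.toNPHardP⟩,
    fun _ h1 => inNPP_star h1.le, countable_star⟩

end Pool.Agent.Results.MP_77e9aa_lc.StarFull
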